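import Pool.Agent.H37.CNK.Stmts
import Pool.Agent.H90.CNY.Stmts

/-!
# Denominators of conductors: Hasse-Arf for sections of inertia groups (`p` odd), and the refined divisor
theorem: statements of the rows of the board `cnl`

Row `XXX` is a theorem `xxx_thm (h1 : S_AAA) ... : S_XXX` in `Pool/Agent/H<k>/CNL/XXX.lean`, importing this
file, namespace `Pool.CND`.

The rows of the board `cnk` with `k(t)` replaced by an arbitrary base field `L^G` (`PCE`: `G` fixes `P` and `t`, `ord t = - |G|`; the derivation `Δ` with `Δ t = t` is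
part of the data, and `DKK` is the assumption `base`).  The proofs are those of `cnk`.  New: `KEP`, `PEE` (existence of `Δ` for the subgroups of `ram 1`), `HAP`,
`INP`, `GDW`, `ZUW`.
-/

set_option autoImplicit false

namespace Pool.CND

open Finset

/-- a `p`-group `G` acting on `L`, with `ram 1 = G` at `P`, `t` in `L^G` with `ord t = - |G|`, the derivation `Δ` -/
structure PCE (p : ℕ) {k L G : Type} [Field k] [Field L] [Algebra k L] [Group G]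
    (ρ : G →* (L ≃ₐ[k] L)) (t : L) (P : Place k L) (Δ : L → L) : Prop where
  pr : p.Prime
  ch : CharP k p
  cd : ∃ n : ℕ, Nat.card G = p ^ n
  inj : Function.Injective ρ
  ram : ram P ρ 1 = Set.univ
  tf : ∀ g : G, ρ g t = t
  ot : P.ord t = -(Nat.card G : ℤ)
  dd : DD k t Δ
  cm : ∀ (g : G) (x : L), Δ (ρ g x) = ρ g (Δ x)
  dp : ∀ x : L, Δ^[p] x = Δ x
  base : ∀ x : L, x ≠ 0 → (∀ g : G, ρ g x = x) → P.Ge (Δ x) (P.ord x) ∧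
    ∀ m : ℤ, P.ord x = Nat.card G * m → ¬ (p : ℤ) ∣ m → Δ x ≠ 0 ∧ P.ord (Δ x) = P.ord x

/-! ## Existence of the derivation -/

/-- KEP: `ker Δ = L ^ p`: `k(t)(x) = k(t)(x ^ p)` since `x` is separable over `k(t)`, so `L = ∑_(i < p) L ^ p t ^ i` (`k` is perfect); `Δ (∑ c_i ^ p t ^ i) = ∑ i c_i ^ p t ^ i`, and the
`t ^ i` are independent over `L ^ p` (apply `Δ`, eigenvalues) -/
def S_KEP : Prop := ∀ (p : ℕ) (k L G : Type) [Field k] [IsAlgClosed k] [Field L] [Algebra k L]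
  [Group G] [Finite G] (ρ : G →* (L ≃ₐ[k] L)) (t : L) (Δ : L → L), p.Prime → CharP k p →
  IsCover ρ t → DD k t Δ → ∀ x : L, Δ x = 0 → ∃ y : L, x = y ^ p

/-- PEE: `Δ₀` from `DRV`; `s` in `L^H` with `ord s = - |H|` (`RMX`); `Δ₀ s ≠ 0` (`KEP`: `s = y ^ p`, `y` is in `L^H`, against `TOT`); `Δ = (s / Δ₀ s) Δ₀`; `Δ ^ p = Δ`: every derivation over `k` is
`c Δ₀` (`DRU`), and `Δ ^ p s = s`.  `base`: `x` in `E = L^H` is `∑_(i < p) c_i ^ p s ^ i` with `c_i` in `E` (the eigenspaces of `Δ`, `KEP`), so with `E → k((u))`, `u = 1 / s` (`LEX` for the place of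
`FXP`), `Δ` is `- u d/du` (both derivations agree) -/
def S_PEE : Prop := ∀ (p : ℕ) (k L G : Type) [Field k] [IsAlgClosed k] [Field L] [Algebra k L]
  [Group G] [Finite G] (ρ : G →* (L ≃ₐ[k] L)) (t : L) (P : Place k L) (W H : Subgroup G),
  p.Prime → CharP k p → IsCover ρ t → P.ord t < 0 → (W : Set G) = ram P ρ 1 → H ≤ W →
  ∃ (s : L) (Δ : L → L), PCE p (ρ.comp H.subtype) s P Δ

/-! ## The rows of `cnk` -/

/-- VAS: as `BAS` -/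
def S_VAS : Prop := ∀ (p : ℕ) (k L G : Type) [Field k] [IsAlgClosed k] [Field L] [Algebra k L]
  [Group G] [Fintype G] (ρ : G →* (L ≃ₐ[k] L)) (t : L) (P : Place k L) (Δ : L → L), PCE p ρ t P Δ →
  ram P ρ 1 = Set.univ ∧ (∀ g : G, Fixes P (ρ g)) ∧ P.ord t = -(Nat.card G : ℤ) ∧
  UM (fun g => P.b (ρ g)) (⊤ : Subgroup G) ∧ Function.Injective ρ

/-- VSM: as `QSM` -/
def S_VSM : Prop := ∀ (p : ℕ) (k L G : Type) [Field k] [IsAlgClosed k] [Field L] [Algebra k L]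
  [Group G] [Fintype G] (ρ : G →* (L ≃ₐ[k] L)) (t : L) (P : Place k L) (Δ : L → L) (M : Subgroup G) [M.Normal],
  PCE p ρ t P Δ → ∃ (E : IntermediateField k L) (ρ' : G ⧸ M →* (E ≃ₐ[k] E)) (t' : E)
    (Q : Place k E) (Δ' : E → E), (∀ v : L, v ∈ E ↔ ∀ m ∈ M, ρ m v = v) ∧ (t' : L) = t ∧
    (∀ (g : G) (v : E), ((ρ' (g : G ⧸ M) v : E) : L) = ρ g v) ∧
    (∀ v : E, ((Δ' v : E) : L) = Δ v) ∧ PCE p ρ' t' Q Δ' ∧
    (∀ v : E, v ≠ 0 → (Nat.card M : ℤ) * Q.ord v = P.ord (v : L)) ∧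
    ∀ g : G, g ∉ M → sm (fun g => P.b (ρ g)) {y | g⁻¹ * y ∈ M} =
      Nat.card M * Q.b (ρ' (g : G ⧸ M))

/-- VPO: as `LPO` -/
def S_VPO : Prop := ∀ (p : ℕ) (k L G : Type) [Field k] [IsAlgClosed k] [Field L] [Algebra k L]
  [Group G] [Fintype G] (ρ : G →* (L ≃ₐ[k] L)) (t : L) (P : Place k L) (Δ : L → L), PCE p ρ t P Δ →
  ∀ g : G, g ≠ 1 → g ^ p = 1 ∨ P.b (ρ g) < P.b (ρ (g ^ p))

/-- VVA: as `DVA` -/
def S_VVA : Prop := ∀ (p : ℕ) (k L G : Type) [Field k] [IsAlgClosed k] [Field L] [Algebra k L]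
  [Group G] [Fintype G] (ρ : G →* (L ≃ₐ[k] L)) (t : L) (P : Place k L) (Δ : L → L)
  (M : Subgroup G), PCE p ρ t P Δ →
  M.Normal → M ≠ ⊤ → ∃ α : L, α ≠ 0 ∧ (∀ m ∈ M, ρ m α = α) ∧ P.ord α = Nat.card M ∧ Δ α ≠ 0 ∧
    P.ord (Δ α) = Nat.card M - So P ρ M

/-- VVB: as `DVB` -/
def S_VVB : Prop := ∀ (p : ℕ) (k L G : Type) [Field k] [IsAlgClosed k] [Field L] [Algebra k L]
  [Group G] [Fintype G] (ρ : G →* (L ≃ₐ[k] L)) (t : L) (P : Place k L) (Δ : L → L) (M : Subgroup G) (α : L),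
  PCE p ρ t P Δ → M.Normal → α ≠ 0 → (∀ m ∈ M, ρ m α = α) → P.ord α = Nat.card M →
  ∀ x : L, (∀ m ∈ M, ρ m x = x) → ∃ r : ℕ → L, (∀ i, ∀ g : G, ρ g (r i) = r i) ∧
    x = ∑ i ∈ range M.index, r i * α ^ i

/-- VVV: as `DVV` -/
def S_VVV : Prop := ∀ (p : ℕ) (k L G : Type) [Field k] [IsAlgClosed k] [Field L] [Algebra k L]
  [Group G] [Fintype G] (ρ : G →* (L ≃ₐ[k] L)) (t : L) (P : Place k L) (Δ : L → L)
  (M : Subgroup G), PCE p ρ t P Δ →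
  M.Normal → ∀ x : L, x ≠ 0 → (∀ m ∈ M, ρ m x = x) → ∃ m : ℤ, P.ord x = Nat.card M * m ∧
    P.Ge (Δ x) (P.ord x - So P ρ M) ∧
    (¬ (p : ℤ) ∣ m → Δ x ≠ 0 ∧ P.ord (Δ x) = P.ord x - So P ρ M)

/-- VHT: as `THT` -/
def S_VHT : Prop := ∀ (p : ℕ) (k L G : Type) [Field k] [IsAlgClosed k] [Field L] [Algebra k L]
  [Group G] [Fintype G] (ρ : G →* (L ≃ₐ[k] L)) (t : L) (P : Place k L) (Δ : L → L) (M : Subgroup G),
  PCE p ρ t P Δ → M.Normal → ∃ (θ : L) (T : Finset G), θ ≠ 0 ∧ (∀ m ∈ M, ρ m θ = θ) ∧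
    P.ord θ = -So P ρ M ∧ (∀ g : G, ∃! s : G, s ∈ T ∧ s⁻¹ * g ∈ M) ∧ ∑ s ∈ T, ρ s θ = 1

/-- VVG: as `AVG` -/
def S_VVG : Prop := ∀ (p : ℕ) (k L G : Type) [Field k] [IsAlgClosed k] [Field L] [Algebra k L]
  [Group G] [Fintype G] (ρ : G →* (L ≃ₐ[k] L)) (t : L) (P : Place k L) (Δ : L → L) (M : Subgroup G) (F : L)
  (B : ℤ), PCE p ρ t P Δ → M.Normal → (∀ m ∈ M, ρ m F = F) → (∀ g : G, P.Ge (ρ g F - F) B) →
  ∃ F₀ : L, (∀ g : G, ρ g F₀ = F₀) ∧ P.Ge (F - F₀) (B - So P ρ M)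

/-- VHY: as `CHY` -/
def S_VHY : Prop := ∀ (p : ℕ) (k L G : Type) [Field k] [IsAlgClosed k] [CharP k p] [Field L]
  [Algebra k L] [Group G] [Fintype G] (ρ : G →* (L ≃ₐ[k] L)) (t : L) (P : Place k L) (Δ : L → L)
  (M B : Subgroup G) (χ : G → ZMod p), PCE p ρ t P Δ → M.Normal → B.Normal → B ≤ M →
  (∀ a ∈ M, ∀ b ∈ M, χ (a * b) = χ a + χ b) → (∀ a ∈ M, χ a = 0 ↔ a ∈ B) →
  (∃ a ∈ M, χ a ≠ 0) → ∃ (y : L) (u : ℕ), (∀ b ∈ B, ρ b y = y) ∧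
    (∀ a ∈ M, ρ a y = y + algebraMap k L (fp k (χ a))) ∧ P.ord y = -((Nat.card B * u : ℕ) : ℤ) ∧
    ¬ p ∣ u ∧ 1 ≤ u ∧
    ∀ g ∈ M, g ∉ B → sm (fun g => P.b (ρ g)) {x | g⁻¹ * x ∈ B} = Nat.card B * u

/-- VBZ: as `LBZ` -/
def S_VBZ : Prop := ∀ (p : ℕ) (k L G : Type) [Field k] [IsAlgClosed k] [Field L] [Algebra k L]
  [Group G] [Fintype G] (ρ : G →* (L ≃ₐ[k] L)) (t : L) (P : Place k L) (Δ : L → L) (z : G)
  (Y : L) (m : ℤ), PCE p ρ t P Δ →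
  orderOf z = p → (∀ g : G, g * z = z * g) → ρ z Y = Y + 1 → m ≤ 0 → P.Ge Y m →
  P.Ge (Δ Y) (min (-(p * P.b (ρ z) + So P ρ (Subgroup.zpowers z)))
    (m - So P ρ (Subgroup.zpowers z)))

/-- VTG: as `ITG` -/
def S_VTG : Prop := ∀ (p : ℕ) (k L G : Type) [Field k] [IsAlgClosed k] [Field L] [Algebra k L]
  [Group G] [Fintype G] (ρ : G →* (L ≃ₐ[k] L)) (t : L) (P : Place k L) (Δ : L → L) (z : G), PCE p ρ t P Δ →
  p ≠ 2 → orderOf z = p → (∀ g : G, g * z = z * g) →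
  ((p : ℤ) - 1) * So P ρ (Subgroup.zpowers z) ≤ p * P.b (ρ z) →
  ∃ n : ℤ, (Nat.card G : ℤ) * n = p * P.b (ρ z) + So P ρ (Subgroup.zpowers z)

/-- hypotheses of the main lemma -/
structure MLK (p : ℕ) {k L G : Type} [Field k] [Field L] [Algebra k L] [Group G] [Fintype G]
    (ρ : G →* (L ≃ₐ[k] L)) (t : L) (P : Place k L) (Δ : L → L) (z x : G) (N : Subgroup G)
    (C₁ : ℤ) : Prop where
  cv : PCE p ρ t P Δ
  odd : p ≠ 2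
  oz : orderOf z = p
  cen : ∀ g : G, g * z = z * g
  nor : N.Normal
  zN : z ∈ N
  xN : x ∈ N
  xz : x ^ p = z
  pow : ∀ a ∈ N, a ^ p ∈ Subgroup.zpowers z
  com : ∀ g : G, ∀ a ∈ N, g * a * g⁻¹ * a⁻¹ ∈ Subgroup.zpowers z
  le : ∀ g : G, g ∉ Subgroup.zpowers z → sm (fun g => P.b (ρ g))
    {y | g⁻¹ * y ∈ Subgroup.zpowers z} + So P ρ (Subgroup.zpowers z) ≤ C₁
  eq : sm (fun g => P.b (ρ g)) {y | x⁻¹ * y ∈ Subgroup.zpowers z} +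
    So P ρ (Subgroup.zpowers z) = C₁
  gap : p * So P ρ N ≤ C₁

/-- VIC: as `YIC` -/
def S_VIC : Prop := ∀ (p : ℕ) (k L G : Type) [Field k] [IsAlgClosed k] [Field L] [Algebra k L]
  [Group G] [Fintype G] (ρ : G →* (L ≃ₐ[k] L)) (t : L) (P : Place k L) (Δ : L → L) (z : G)
  (M B : Subgroup G) (u C₁ : ℤ), PCE p ρ t P Δ → orderOf z = p → (∀ g : G, g * z = z * g) →
  M.Normal → B.Normal → B ≤ M → z ∈ B → Nat.card M = p * Nat.card B →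
  (∀ g ∈ M, g ∉ B → sm (fun g => P.b (ρ g)) {x | g⁻¹ * x ∈ B} = Nat.card B * u) →
  (∀ g : G, g ∉ Subgroup.zpowers z → sm (fun g => P.b (ρ g))
    {y | g⁻¹ * y ∈ Subgroup.zpowers z} + So P ρ (Subgroup.zpowers z) ≤ C₁) →
  So P ρ B = So P ρ M + (p - 1) * (Nat.card B * u) ∧ (Nat.card M : ℤ) * u + So P ρ M ≤ C₁ ∧
  ((∃ g ∈ M, g ∉ B ∧ sm (fun g => P.b (ρ g)) {y | g⁻¹ * y ∈ Subgroup.zpowers z} +
    So P ρ (Subgroup.zpowers z) = C₁) → (Nat.card M : ℤ) * u + So P ρ M = C₁)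

/-- VIS: as `YIS` -/
def S_VIS : Prop := ∀ (p : ℕ) (k L G : Type) [Field k] [IsAlgClosed k] [Field L] [Algebra k L]
  [Group G] [Fintype G] (ρ : G →* (L ≃ₐ[k] L)) (t : L) (P : Place k L) (Δ : L → L) (z x : G)
  (N : Subgroup G) (C₁ : ℤ), MLK p ρ t P Δ z x N C₁ →
  ∃ (d : ℕ) (n : Fin (d + 1) → G) (y : Fin (d + 1) → L) (u : ℤ), YID p d ρ P Δ z x N C₁ n y u

/-- VQQ: as `YQQ` -/
def S_VQQ : Prop := ∀ (p d : ℕ) (k L G : Type) [Field k] [IsAlgClosed k] [CharP k p] [Field L]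
  [Algebra k L] [Group G] [Fintype G] (ρ : G →* (L ≃ₐ[k] L)) (t : L) (P : Place k L) (Δ : L → L)
  (z x : G) (N : Subgroup G) (C₁ : ℤ) (n : Fin (d + 1) → G) (y : Fin (d + 1) → L) (u : ℤ),
  MLK p ρ t P Δ z x N C₁ → YID p d ρ P Δ z x N C₁ n y u →
  ∃ (Y : L) (B : Fin (d + 1) → Fin (d + 1) → ZMod p), ρ z Y = Y + 1 ∧ (∀ i j, j ≤ i → B i j = 0) ∧
    ∀ i, ρ (n i) Y = Y + (if i = 0 then wc p (y 0) 1 else 0) +
      ∑ j, algebraMap k L (fp k (B i j)) * y j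

/-- VDG: as `RDG` -/
def S_VDG : Prop := ∀ (p : ℕ) (k L G : Type) [Field k] [IsAlgClosed k] [Field L] [Algebra k L]
  [Group G] [Fintype G] (ρ : G →* (L ≃ₐ[k] L)) (t : L) (P : Place k L) (Δ : L → L) (N : Subgroup G) (g : L),
  PCE p ρ t P Δ → (∀ a ∈ N, ρ a g = g) → ∃ w : L, (∀ a ∈ N, ρ a w = w) ∧
    (P.Ge (g - (w ^ p - w)) 0 ∨ (g - (w ^ p - w) ≠ 0 ∧
      ∃ m : ℤ, P.ord (g - (w ^ p - w)) = Nat.card N * m ∧ m < 0 ∧ ¬ (p : ℤ) ∣ m))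

/-- VML: as `YML` -/
def S_VML : Prop := ∀ (p d : ℕ) (k L G : Type) [Field k] [IsAlgClosed k] [CharP k p] [Field L]
  [Algebra k L] [Group G] [Fintype G] (ρ : G →* (L ≃ₐ[k] L)) (t : L) (P : Place k L) (Δ : L → L)
  (z x : G) (N : Subgroup G) (C₁ : ℤ) (n : Fin (d + 1) → G) (y : Fin (d + 1) → L) (u : ℤ),
  MLK p ρ t P Δ z x N C₁ → YID p d ρ P Δ z x N C₁ n y u →
  ∃ (Y g₁ : L) (B : Fin (d + 1) → Fin (d + 1) → ZMod p), YEQ p d ρ P z N y Y g₁ B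

/-- VE1: as `ME1` -/
def S_VE1 : Prop := ∀ (p d : ℕ) (k L G : Type) [Field k] [IsAlgClosed k] [CharP k p] [Field L]
  [Algebra k L] [Group G] [Fintype G] (ρ : G →* (L ≃ₐ[k] L)) (t : L) (P : Place k L) (Δ : L → L)
  (z x : G) (N : Subgroup G) (C₁ : ℤ) (n : Fin (d + 1) → G) (y : Fin (d + 1) → L) (u : ℤ)
  (Y g₁ : L) (B : Fin (d + 1) → Fin (d + 1) → ZMod p), MLK p ρ t P Δ z x N C₁ →
  YID p d ρ P Δ z x N C₁ n y u → YEQ p d ρ P z N y Y g₁ B →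
  ∃ q : ℤ, (Nat.card N : ℤ) * u ≤ q ∧ P.Ge Y (-q) ∧
    ((y 0) ^ p - y 0) ^ (p - 1) * Δ ((y 0) ^ p - y 0) + Δ g₁ ≠ 0 ∧
    P.ord (((y 0) ^ p - y 0) ^ (p - 1) * Δ ((y 0) ^ p - y 0) + Δ g₁) = -(p * q + So P ρ N) ∧
    p * q + So P ρ N ≤ p * P.b (ρ z) + So P ρ (Subgroup.zpowers z)

/-- VE2: as `ME2` -/
def S_VE2 : Prop := ∀ (p d : ℕ) (k L G : Type) [Field k] [IsAlgClosed k] [CharP k p] [Field L]
  [Algebra k L] [Group G] [Fintype G] (ρ : G →* (L ≃ₐ[k] L)) (t : L) (P : Place k L) (Δ : L → L)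
  (z x : G) (N : Subgroup G) (C₁ : ℤ) (n : Fin (d + 1) → G) (y : Fin (d + 1) → L) (u q : ℤ)
  (Y g₁ : L) (B : Fin (d + 1) → Fin (d + 1) → ZMod p), MLK p ρ t P Δ z x N C₁ →
  YID p d ρ P Δ z x N C₁ n y u → YEQ p d ρ P z N y Y g₁ B → (Nat.card N : ℤ) * u ≤ q →
  P.Ge Y (-q) → ∀ g : G,
    P.Ge (ρ g (((y 0) ^ p - y 0) ^ (p - 1) * Δ ((y 0) ^ p - y 0) + Δ g₁) -
      (((y 0) ^ p - y 0) ^ (p - 1) * Δ ((y 0) ^ p - y 0) + Δ g₁)) (-(q + C₁))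

/-- VE3: as `ME3` -/
def S_VE3 : Prop := ∀ (p d : ℕ) (k L G : Type) [Field k] [IsAlgClosed k] [CharP k p] [Field L]
  [Algebra k L] [Group G] [Fintype G] (ρ : G →* (L ≃ₐ[k] L)) (t : L) (P : Place k L) (Δ : L → L)
  (z x : G) (N : Subgroup G) (C₁ : ℤ) (n : Fin (d + 1) → G) (y : Fin (d + 1) → L) (u q : ℤ)
  (Y g₁ : L) (B : Fin (d + 1) → Fin (d + 1) → ZMod p), MLK p ρ t P Δ z x N C₁ →
  YID p d ρ P Δ z x N C₁ n y u → YEQ p d ρ P z N y Y g₁ B → (Nat.card N : ℤ) * u ≤ q →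
  ((y 0) ^ p - y 0) ^ (p - 1) * Δ ((y 0) ^ p - y 0) + Δ g₁ ≠ 0 →
  P.ord (((y 0) ^ p - y 0) ^ (p - 1) * Δ ((y 0) ^ p - y 0) + Δ g₁) = -(p * q + So P ρ N) →
  p * q + So P ρ N ≤ p * P.b (ρ z) + So P ρ (Subgroup.zpowers z) →
  (∀ g : G, P.Ge (ρ g (((y 0) ^ p - y 0) ^ (p - 1) * Δ ((y 0) ^ p - y 0) + Δ g₁) -
    (((y 0) ^ p - y 0) ^ (p - 1) * Δ ((y 0) ^ p - y 0) + Δ g₁)) (-(q + C₁))) →
  p * C₁ ≤ p * P.b (ρ z) + So P ρ (Subgroup.zpowers z)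

/-- VLA: as `MLA` -/
def S_VLA : Prop := ∀ (p : ℕ) (k L G : Type) [Field k] [IsAlgClosed k] [Field L] [Algebra k L]
  [Group G] [Fintype G] (ρ : G →* (L ≃ₐ[k] L)) (t : L) (P : Place k L) (Δ : L → L) (z x : G)
  (N : Subgroup G) (C₁ : ℤ), MLK p ρ t P Δ z x N C₁ →
  p * C₁ ≤ p * P.b (ρ z) + So P ρ (Subgroup.zpowers z)

/-- VI1: as `HI1` -/
def S_VI1 : Prop := ∀ (p : ℕ) (k L G : Type) [Field k] [IsAlgClosed k] [Field L] [Algebra k L]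
  [Group G] [Fintype G] (ρ : G →* (L ≃ₐ[k] L)) (t : L) (P : Place k L) (Δ : L → L) (z x : G)
  (R : Subgroup G), PCE p ρ t P Δ → p ≠ 2 → orderOf z = p → (∀ g : G, g * z = z * g) → x ^ p = z →
  (∀ a g : G, a ^ p ∈ Subgroup.zpowers z → g * a * g⁻¹ * a⁻¹ ∈ Subgroup.zpowers z) →
  (∀ a : G, a ∈ R ↔ a ^ p ∈ Subgroup.zpowers z) →
  (∀ g : G, g ∉ Subgroup.zpowers z → sm (fun g => P.b (ρ g))
    {y | g⁻¹ * y ∈ Subgroup.zpowers z} ≤ sm (fun g => P.b (ρ g))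
    {y | x⁻¹ * y ∈ Subgroup.zpowers z}) →
  p * So P ρ R ≤ sm (fun g => P.b (ρ g)) {y | x⁻¹ * y ∈ Subgroup.zpowers z} +
    So P ρ (Subgroup.zpowers z) →
  p * (sm (fun g => P.b (ρ g)) {y | x⁻¹ * y ∈ Subgroup.zpowers z} +
    So P ρ (Subgroup.zpowers z)) ≤ p * P.b (ρ z) + So P ρ (Subgroup.zpowers z)

/-- VIN: as `HIN` -/
def S_VIN : Prop := ∀ (p : ℕ) (k L G : Type) [Field k] [IsAlgClosed k] [Field L] [Algebra k L]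
  [Group G] [Fintype G] (ρ : G →* (L ≃ₐ[k] L)) (t : L) (P : Place k L) (Δ : L → L) (Ω : Subgroup G) (l : ℤ),
  PCE p ρ t P Δ → p ≠ 2 → (∀ x : G, x ^ p = 1 → x ∈ Subgroup.center G) →
  (∀ x : G, x ∈ Ω ↔ x ^ p = 1) → IsLst (fun g => P.b (ρ g)) (⊤ : Subgroup G) l →
  p * So P ρ Ω ≤ l + So P ρ ⊥

/-- VCZ: as `PCZ` (`l + S(1)` instead of `|G| c`) -/
def S_VCZ : Prop := ∀ (p : ℕ) (k L G : Type) [Field k] [IsAlgClosed k] [Field L] [Algebra k L]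
  [Group G] [Fintype G] (ρ : G →* (L ≃ₐ[k] L)) (t : L) (P : Place k L) (Δ : L → L) (l : ℤ),
  PCE p ρ t P Δ → p ≠ 2 → (∀ x : G, x ^ p = 1 → x ∈ Subgroup.center G) →
  IsLst (fun g => P.b (ρ g)) (⊤ : Subgroup G) l → ∃ n : ℤ, (Nat.card G : ℤ) * n = l + So P ρ ⊥

/-! ## The refined divisor theorem -/

/-- `H` has a quotient `H / H₀`, `z ∉ H₀`, which is abelian, or (`p` odd) in which all elements of order `p` are central -/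
def PSec {G : Type} [Group G] (p : ℕ) (H : Subgroup G) (z : G) : Prop :=
  ∃ H₀ : Subgroup G, H₀ ≤ H ∧ (∀ h ∈ H, ∀ x ∈ H₀, h * x * h⁻¹ ∈ H₀) ∧ z ∉ H₀ ∧
    ((∀ x ∈ H, ∀ h ∈ H, h * x * h⁻¹ * x⁻¹ ∈ H₀) ∨
      (p ≠ 2 ∧ ∀ x ∈ H, x ^ p ∈ H₀ → ∀ h ∈ H, h * x * h⁻¹ * x⁻¹ ∈ H₀))

/-- HAP: first case of `PSec`: `HAC` (`⁅H, H⁆ ≤ H₀`).  Second: `PEE` for `H`; `VSM` for `M = H₀` in `H`; `VCZ` for `H / H₀` (its largest value is that of the image of `z`), `UQT`: `U(H) = U(H / H₀)` -/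
def S_HAP : Prop := ∀ (p : ℕ) (k L G : Type) [Field k] [IsAlgClosed k] [Field L] [Algebra k L]
  [Group G] [Fintype G] (ρ : G →* (L ≃ₐ[k] L)) (t : L) (P : Place k L) (W H : Subgroup G) (l : ℤ)
  (z : G), p.Prime → CharP k p → IsCover ρ t → P.ord t < 0 → (W : Set G) = ram P ρ 1 → H ≤ W →
  z ∈ H → PSec p H z → P.b (ρ z) = l → IsLst (fun g => P.b (ρ g)) H l →
  ∃ y : ℤ, U (fun g => P.b (ρ g)) H l = y

/-- INP: as `INC`, with `HAP` instead of `HAC` -/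
def S_INP : Prop := ∀ (p : ℕ) (k L G : Type) [Field k] [IsAlgClosed k] [Field L] [Algebra k L]
  [Group G] [Fintype G] (ρ : G →* (L ≃ₐ[k] L)) (t : L) (P : Place k L) (W I H : Subgroup G)
  (d : ℕ) (l : ℤ) (z : G), p.Prime → CharP k p → IsCover ρ t → P.ord t < 0 →
  (W : Set G) = ram P ρ 1 → I ≤ W → H ≤ I → (∃ n : ℕ, Nat.card I = p ^ n) → z ∈ H →
  PSec p H z → P.b (ρ z) = l → Nat.card I = p ^ d * Nat.card H →
  IsLst (fun g => P.b (ρ g)) I l → ∃ y : ℤ, (p : ℚ) ^ d * U (fun g => P.b (ρ g)) I l = y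

/-- GDW: as `GDV`, with `INP` instead of `INC` -/
def S_GDW : Prop := ∀ (p : ℕ) (k G : Type) [Field k] [IsAlgClosed k] [Group G] [Finite G]
  (a r : ℕ), p.Prime → CharP k p → 1 ≤ r →
  (∀ W : Subgroup G, (∃ n : ℕ, Nat.card W = p ^ n) → Subgroup.normalClosure (W : Set G) = ⊤ →
    (∀ z ∈ W, z ≠ 1 → z ^ p = 1 → (∀ w ∈ W, w * z = z * w) → ∃ (H : Subgroup G) (d : ℕ),
      H ≤ W ∧ z ∈ H ∧ PSec p H z ∧ d ≤ a ∧ Nat.card W = p ^ d * Nat.card H) ∧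
    (∀ (g : G) (C : Subgroup G), ¬ p ∣ orderOf g → (∀ w ∈ W, g * w * g⁻¹ ∈ W) → C ≤ W → C ≠ ⊥ →
      EA p C → (∀ w ∈ W, ∀ x ∈ C, w * x = x * w) → (∀ x ∈ C, g * x * g⁻¹ ∈ C) → YS g C →
      ∀ x ∈ C, g ^ r * x = x * g ^ r)) →
  (∀ c ∈ Cond k G, ∃ y : ℤ, ((p ^ a * r : ℕ) : ℚ) * c = y) ∧ NG k G ∣ p ^ a * r

/-- ZUW: `p`-groups, from `GDW` (`r = 1`) -/
def S_ZUW : Prop := ∀ (p a : ℕ) (k G : Type) [Field k] [IsAlgClosed k] [CharP k p] [Group G]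
  [Finite G], p.Prime → (∃ n : ℕ, Nat.card G = p ^ n) →
  (∀ z ∈ Subgroup.center G, z ^ p = 1 → z ≠ 1 → ∃ H : Subgroup G, z ∈ H ∧ PSec p H z ∧
    H.index ∣ p ^ a) → (∀ c ∈ Cond k G, ∃ y : ℤ, ((p ^ a : ℕ) : ℚ) * c = y) ∧ NG k G ∣ p ^ a

end Pool.CND
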